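import Mathlib
import Pool.Agent.H986S.Chr
import Pool.Agent.W2helper16.RW.Asy
import Pool.Agent.W2helper65.RW.Col
import Pool.Agent.W2helper60.RW.DegThree
import Pool.Agent.W2helper11.RW.DegK

set_option autoImplicit false

namespace Pool.Agent.Results.MP_e0aece_nt.ColouringBound

open Filter

/-- `n` passes the strong test for the base `a`: writing `n - 1 = 2 ^ u * t` with `t` odd,
`a ^ t` is `1` modulo `n` or `a ^ (2 ^ i * t)` is `-1` modulo `n` for some `i < u`. -/
def Passes (n : ℕ) (a : ℤ) : Prop :=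
  ∃ u t : ℕ, Odd t ∧ n - 1 = 2 ^ u * t ∧
    (a ^ t ≡ 1 [ZMOD n] ∨ ∃ i < u, a ^ (2 ^ i * t) ≡ -1 [ZMOD n])

/-- `a` is a witness for `n`: `n` does not divide `a` and `n` fails the strong test to
base `a`. -/
def IsWitness (n : ℕ) (a : ℤ) : Prop := ¬ (n : ℤ) ∣ a ∧ ¬ Passes n a

/-- The finite set `W` is reliable for `x`: every odd composite `n ≤ x` has a witness in `W`. -/
def Reliable (x : ℝ) (W : Finset ℤ) : Prop :=
  ∀ n : ℕ, (n : ℝ) ≤ x → Odd n → 1 < n → ¬ n.Prime → ∃ a ∈ W, IsWitness n a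

/-- `R x`: the least number of elements of a reliable set for `x`. -/
noncomputable def R (x : ℝ) : ℕ := sInf {k : ℕ | ∃ W : Finset ℤ, Reliable x W ∧ W.card = k}

/-- Carmichael numbers, in Korselt's form: squarefree composite `n` with `p - 1 ∣ n - 1` for
every prime `p ∣ n`. -/
def Carm (n : ℕ) : Prop :=
  1 < n ∧ ¬ n.Prime ∧ Squarefree n ∧ ∀ p : ℕ, p.Prime → p ∣ n → p - 1 ∣ n - 1

/-- The primes can be coloured with `K` colours so that no Carmichael number up to `x` has all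
its prime factors of one colour. -/
def Colourable (x : ℝ) (K : ℕ) : Prop :=
  ∃ c : ℕ → ℕ, (∀ p, c p < K) ∧ ∀ n : ℕ, (n : ℝ) ≤ x → Carm n →
    ∃ p q : ℕ, p.Prime ∧ q.Prime ∧ p ∣ n ∧ q ∣ n ∧ c p ≠ c q

/-- For every `ε > 0` and all sufficiently large real `x`: the primes can be coloured with at
most `x ^ (1 / 10 + ε)` colours so that no Carmichael number up to `x` has all its prime factors
of one colour, and the least size `R x` of a reliable set for `x` is attained and is at most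
`(1 / (10 log 3) + ε) log x`. -/
theorem result : ∀ ε : ℝ, 0 < ε → ∀ᶠ x : ℝ in atTop,
    (∃ K : ℕ, Colourable x K ∧ (K : ℝ) ≤ x ^ (1 / 10 + ε)) ∧
    (∃ W : Finset ℤ, Reliable x W ∧ W.card = R x) ∧
      (R x : ℝ) ≤ (1 / (10 * Real.log 3) + ε) * Real.log x := by
  intro ε hε
  have hl3 : 0 < Real.log 3 := Real.log_pos (by norm_num)
  set δ : ℝ := min ε (ε * Real.log 3 / 2) with hδ
  have hδ0 : 0 < δ := lt_min hε (by positivity)
  have hδ1 : δ ≤ ε := min_le_left _ _
  have hδ2 : δ ≤ ε * Real.log 3 / 2 := min_le_right _ _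
  have e2 : ∀ᶠ x : ℝ in atTop, 2 ≤ ε / 2 * Real.log x := by
    have := Real.tendsto_log_atTop.eventually_ge_atTop (4 / ε)
    filter_upwards [this] with x hx
    rw [div_le_iff₀ hε] at hx
    linarith
  filter_upwards [Pool.Agent.W2helper16.RW.colours Pool.Agent.W2helper65.RW.col
    Pool.Agent.W2helper60.RW.deg3 Pool.Agent.W2helper11.RW.degk δ hδ0, e2,
    eventually_ge_atTop 1] with x hx hx2 hx3
  obtain ⟨K, hK1, hcol, hKx⟩ := hx
  have hx0 : 0 < x := by linarith
  have hlog0 : 0 ≤ Real.log x := Real.log_nonneg hx3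
  obtain ⟨W, hW1, hW2⟩ := Pool.Agent.H986S.reliable_of_colourable (x := ⌊x⌋₊) (K := K) hcol
  have hW : Reliable x W := fun n h1 h2 h3 h4 => hW2 n (Nat.le_floor h1) h2 h3 h4
  have hmem : W.card ∈ {k : ℕ | ∃ W : Finset ℤ, Reliable x W ∧ W.card = k} := ⟨W, hW, rfl⟩
  refine ⟨⟨K, ?_, ?_⟩, Nat.sInf_mem ⟨W.card, hmem⟩, ?_⟩
  · obtain ⟨c, hc1, hc2⟩ := hcol
    exact ⟨c, hc1, fun n hn hC => hc2 n (Nat.le_floor hn) hC⟩
  · exact hKx.trans (Real.rpow_le_rpow_of_exponent_le hx3 (by linarith))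
  · have h1 : R x ≤ W.card := Nat.sInf_le hmem
    have h1' : (R x : ℝ) ≤ W.card := by exact_mod_cast h1
    have hK1' : (1 : ℝ) ≤ K := by exact_mod_cast hK1
    have h2 : Real.log K ≤ (1 / 10 + δ) * Real.log x := by
      have := Real.log_le_log (by linarith) hKx
      rwa [Real.log_rpow hx0] at this
    have h3 : ((Nat.clog 3 K : ℕ) : ℝ) ≤ Real.log K / Real.log 3 + 1 := by
      have h4 := Real.natCeil_logb_natCast 3 K
      have h5 : 0 ≤ Real.logb 3 K := Real.logb_nonneg (by norm_num) hK1'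
      have h6 := Nat.ceil_lt_add_one h5
      have h7 : ((Nat.clog 3 K : ℕ) : ℝ) < Real.logb 3 K + 1 := by
        rw [← h4]
        exact_mod_cast h6
      rw [Real.logb] at h7
      exact h7.le
    have h4 : (W.card : ℝ) ≤ Nat.clog 3 K + 1 := by exact_mod_cast hW1
    have h5 : Real.log K / Real.log 3 ≤ (1 / (10 * Real.log 3) + ε / 2) * Real.log x := by
      rw [div_le_iff₀ hl3]
      calc Real.log K ≤ (1 / 10 + δ) * Real.log x := h2
        _ ≤ (1 / 10 + ε * Real.log 3 / 2) * Real.log x :=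
          mul_le_mul_of_nonneg_right (by linarith) hlog0
        _ = _ := by field_simp
    linarith

end Pool.Agent.Results.MP_e0aece_nt.ColouringBound
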